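import Pool.Agent.Y954.S2.Loc
import Pool.Agent.Y5.S2.Stm

/-! Maximal solutions for quadratic systems with a block diagonal dissipative linear term. -/

open Set Filter Topology MeasureTheory

set_option autoImplicit false

namespace Pool.Agent.Y954.S2

open Pool.Agent.Y5.E Pool.Agent.Y5.S2
open Pool.Agent.Y6.N (lin)
open Pool.Agent.Y37.NE

variable {I : Type} {T : I → I → ℝ} {d r : I → ℝ} {b : I → ℕ} {c : I → I → I → ℝ}

/-- solutions on a half open interval, bounded in the first weighted space -/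
structure BO (T : I → I → ℝ) (r : I → ℝ) (c : I → I → I → ℝ) (Θ : ℝ) (z : I → ℝ → ℝ) :
    Prop where
  deriv : ∀ i, ∀ t ∈ Ico 0 Θ, HasDerivWithinAt (z i)
    (lin T (fun a => z a t) i + bl c (fun a => z a t) (fun a => z a t) i) (Ico 0 Θ) t
  bdd : ∀ T' < Θ, ∃ M, ∀ t ∈ Icc 0 T', Sk r 1 (fun a => z a t) ∧ nk r 1 (fun a => z a t) ≤ M

theorem bc_of {Θ T' : ℝ} {z : I → ℝ → ℝ} (h : BO T r c Θ z) (hT : T' < Θ) :
    BC T r c T' z :=
  ⟨fun n t ht => (h.deriv n t ⟨ht.1, lt_of_le_of_lt ht.2 hT⟩).mono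
    (fun _ hr => ⟨hr.1, lt_of_le_of_lt hr.2 hT⟩), h.bdd T' hT⟩

theorem bo_mono {Θ Θ' : ℝ} {x : I → ℝ → ℝ} (h : BO T r c Θ x) (hT : Θ' ≤ Θ) :
    BO T r c Θ' x :=
  ⟨fun n t ht => (h.deriv n t ⟨ht.1, lt_of_lt_of_le ht.2 hT⟩).mono
    (fun _ hr => ⟨hr.1, lt_of_lt_of_le hr.2 hT⟩), fun t ht => h.bdd t (lt_of_lt_of_le ht hT)⟩

/-- a family of solutions on longer and longer intervals gives a solution -/
theorem bo_of_local {Θ : ℝ} {x : I → ℝ → ℝ}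
    (h : ∀ t < Θ, ∃ T', t < T' ∧ ∃ y, BO T r c T' y ∧ ∀ n, ∀ s ∈ Ico 0 T', x n s = y n s) :
    BO T r c Θ x := by
  constructor
  · intro n t ht
    obtain ⟨T', hT', y, hy, hxy⟩ := h t ht.2
    have h1 := hy.deriv n t ⟨ht.1, hT'⟩
    have h2 : (fun m => x m t) = fun m => y m t := by
      ext m; exact hxy m t ⟨ht.1, hT'⟩
    rw [h2]
    have h3 : HasDerivWithinAt (x n)
        (lin T (fun m => y m t) n + bl c (fun m => y m t) (fun m => y m t) n) (Ico 0 T') t :=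
      h1.congr (fun s hs => hxy n s hs) (hxy n t ⟨ht.1, hT'⟩)
    refine h3.mono_of_mem_nhdsWithin ?_
    have h4 : Iio T' ∈ 𝓝 t := Iio_mem_nhds hT'
    filter_upwards [mem_nhdsWithin_of_mem_nhds h4, self_mem_nhdsWithin] with s hs hs'
    exact ⟨hs'.1, hs⟩
  · intro t ht
    obtain ⟨T', hT', y, hy, hxy⟩ := h t ht
    obtain ⟨M, hM⟩ := hy.bdd t hT'
    refine ⟨M, fun s hs => ?_⟩
    have h2 : (fun m => x m s) = fun m => y m s := by
      ext m; exact hxy m s ⟨hs.1, lt_of_le_of_lt hs.2 hT'⟩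
    rw [h2]
    exact hM s hs

theorem bo_of_bc {Θ : ℝ} {x : I → ℝ → ℝ} (h : BC T r c Θ x) : BO T r c Θ x := by
  obtain ⟨M, hM⟩ := h.bdd
  exact ⟨fun n t ht => (h.deriv n t ⟨ht.1, ht.2.le⟩).mono Ico_subset_Icc_self,
    fun T' hT' => ⟨M, fun t ht => hM t ⟨ht.1, ht.2.trans hT'.le⟩⟩⟩

/-- continuation of a bounded solution -/
theorem extendB (hA : Adm d r c) (hB : Blk T d r b) {Θ : ℝ} (hT : 0 < Θ) {x : I → ℝ → ℝ}
    (hx : BO T r c Θ x) {M : ℝ} (hM : ∀ t ∈ Ico 0 Θ, nk r 1 (fun a => x a t) ≤ M) :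
    ∃ T' > Θ, ∃ y, BO T r c T' y ∧ ∀ n, y n 0 = x n 0 := by
  obtain ⟨τ, hτ, hloc⟩ := local_exB hA hB 0 M
  simp only [zero_add] at hloc
  have hS : ∀ t ∈ Ico 0 Θ, Sk r 1 (fun a => x a t) := by
    intro t ht
    obtain ⟨M', hM'⟩ := hx.bdd t ht.2
    exact (hM' t ⟨ht.1, le_rfl⟩).1
  set t₀ := max 0 (Θ - τ / 2) with ht₀
  have ht₀0 : 0 ≤ t₀ := le_max_left _ _
  have ht₀T : t₀ < Θ := max_lt hT (by linarith)
  have ht₀1 : Θ - τ / 2 ≤ t₀ := le_max_right _ _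
  obtain ⟨y, hy0, hy, -⟩ := hloc (fun n => x n t₀) (hS t₀ ⟨ht₀0, ht₀T⟩) (hM t₀ ⟨ht₀0, ht₀T⟩)
  -- agreement
  have hag : ∀ n, ∀ t ∈ Ico t₀ Θ, x n t = y n (t - t₀) := by
    intro n t ht
    have h1 : BC T r c (t - t₀) (fun n r => x n (t₀ + r)) :=
      BC.shift (bc_of hx ht.2) ht₀0
    have h2 : BC T r c (t - t₀) y := BC.mono hy (by linarith [ht.2])
    have h3 := bc_uniq hA hB h1 h2 (fun n => by simp [hy0]) n (t - t₀)
      ⟨by linarith [ht.1], le_rfl⟩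
    simpa using h3
  refine ⟨t₀ + τ, by linarith, fun n t => if t < Θ then x n t else y n (t - t₀), ⟨?_, ?_⟩, ?_⟩
  · intro n t ht
    rcases lt_or_ge t Θ with htT | htT
    · have h1 := hx.deriv n t ⟨ht.1, htT⟩
      have h2 : (fun m => if t < Θ then x m t else y m (t - t₀)) = fun m => x m t := by
        ext m; rw [if_pos htT]
      rw [h2]
      have h3 : HasDerivWithinAt (fun t => if t < Θ then x n t else y n (t - t₀))
          (lin T (fun m => x m t) n + bl c (fun m => x m t) (fun m => x m t) n) (Ico 0 Θ) t :=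
        h1.congr (fun r hr => if_pos hr.2) (if_pos htT)
      refine h3.mono_of_mem_nhdsWithin ?_
      have h4 : Iio Θ ∈ 𝓝 t := Iio_mem_nhds htT
      filter_upwards [mem_nhdsWithin_of_mem_nhds h4, self_mem_nhdsWithin] with r hr hr'
      exact ⟨hr'.1, hr⟩
    · have h2 : (fun m => if t < Θ then x m t else y m (t - t₀)) = fun m => y m (t - t₀) := by
        ext m; rw [if_neg (not_lt.2 htT)]
      rw [h2]
      have h1 := hy.deriv n (t - t₀) ⟨by linarith, by linarith [ht.2]⟩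
      have h3 : HasDerivAt (y n) (lin T (fun m => y m (t - t₀)) n +
          bl c (fun m => y m (t - t₀)) (fun m => y m (t - t₀)) n) (t - t₀) :=
        h1.hasDerivAt (Icc_mem_nhds (by linarith) (by linarith [ht.2]))
      have h4 := h3.comp_sub_const t t₀
      have h5 : (fun r => if r < Θ then x n r else y n (r - t₀)) =ᶠ[𝓝 t] fun r => y n (r - t₀) := by
        have h6 : Ioi t₀ ∈ 𝓝 t := Ioi_mem_nhds (by linarith)
        filter_upwards [h6] with r hr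
        split_ifs with h7
        · exact hag n r ⟨le_of_lt hr, h7⟩
        · rfl
      exact (h4.congr_of_eventuallyEq h5).hasDerivWithinAt
  · intro T' hT'
    obtain ⟨M', hM'⟩ := hy.bdd
    refine ⟨max M M', fun t ht => ?_⟩
    rcases lt_or_ge t Θ with htT | htT
    · have h2 : (fun m => if t < Θ then x m t else y m (t - t₀)) = fun m => x m t := by
        ext m; rw [if_pos htT]
      rw [h2]
      exact ⟨hS t ⟨ht.1, htT⟩, (hM t ⟨ht.1, htT⟩).trans (le_max_left _ _)⟩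
    · have h2 : (fun m => if t < Θ then x m t else y m (t - t₀)) = fun m => y m (t - t₀) := by
        ext m; rw [if_neg (not_lt.2 htT)]
      rw [h2]
      obtain ⟨h3, h4⟩ := hM' (t - t₀) ⟨by linarith, by linarith [ht.2]⟩
      exact ⟨h3, h4.trans (le_max_right _ _)⟩
  · intro n
    exact if_pos hT

theorem rapid_ofB (hA : Adm d r c) (hB : Blk T d r b) {Θ : ℝ} {x : I → ℝ → ℝ}
    (hx : BO T r c Θ x) (h0 : ∀ k : ℕ, Sk r k (fun a => x a 0)) : Rapid r Θ x := by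
  intro k T' hT'
  have hc := bc_of hx hT'
  obtain ⟨M, hM⟩ := persistB hA hB k hc (h0 (k + 1))
  exact ⟨M, fun t ht => ⟨Sk_mono hA.r1 (Nat.le_succ k) (hM t ht).1,
    (nk_mono hA.r1 (Nat.le_succ k) (hM t ht).1).trans (hM t ht).2⟩⟩

theorem t_WPA : Pool.Agent.Y5.S2.S_WPA := by
  intro I b T d r c hA hB x₀ hx₀
  have hU : ∀ (Θ : ℝ) (z z' : I → ℝ → ℝ), BO T r c Θ z → BO T r c Θ z' →
      (∀ i, z i 0 = z' i 0) → ∀ i, ∀ t ∈ Ico 0 Θ, z i t = z' i t := by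
    intro Θ z z' hz hz' h0 i t ht
    exact bc_uniq hA hB (bc_of hz ht.2) (bc_of hz' ht.2) h0 i t ⟨ht.1, le_rfl⟩
  have hx01 := hx₀ 1
  -- the set of existence times
  set 𝒯 := {Θ : ℝ | 0 < Θ ∧ ∃ x, (∀ n, x n 0 = x₀ n) ∧ BO T r c Θ x} with h𝒯
  have hne : 𝒯.Nonempty := by
    obtain ⟨τ, hτ, hloc⟩ := local_exB hA hB 0 (nk r 1 x₀)
    obtain ⟨x, h0, hx, -⟩ := hloc x₀ (by simpa only [zero_add] using hx01) le_rfl
    exact ⟨τ, hτ, x, h0, bo_of_bc hx⟩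
  have huniq : ∀ Θ Θ' (x y : I → ℝ → ℝ), BO T r c Θ x → BO T r c Θ' y →
      (∀ n, x n 0 = x₀ n) → (∀ n, y n 0 = x₀ n) → ∀ n, ∀ t ∈ Ico 0 (min Θ Θ'), x n t = y n t := by
    intro Θ Θ' x y hx hy h0 h0'
    exact hU _ x y (bo_mono hx (min_le_left _ _)) (bo_mono hy (min_le_right _ _))
      (fun n => by rw [h0, h0'])
  -- the union of the solutions
  classical
  have hsel : ∀ t : ℝ, ∃ z : I → ℝ, ∀ Θ ∈ 𝒯, t ∈ Ico 0 Θ → ∀ x : I → ℝ → ℝ, (∀ n, x n 0 = x₀ n) →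
      BO T r c Θ x → ∀ n, z n = x n t := by
    intro t
    by_cases h : ∃ Θ ∈ 𝒯, t ∈ Ico 0 Θ
    · obtain ⟨Θ, ⟨hT0, x, h0, hx⟩, htT⟩ := h
      refine ⟨fun n => x n t, fun T' _ htT' y h0' hy n => ?_⟩
      exact huniq Θ T' x y hx hy h0 h0' n t ⟨htT.1, lt_min htT.2 htT'.2⟩
    · refine ⟨fun _ => 0, fun Θ hT ht => absurd ⟨Θ, hT, ht⟩ h⟩
  choose z hz using hsel
  set x : I → ℝ → ℝ := fun n t => z t n with hx
  have hxz : ∀ Θ ∈ 𝒯, ∃ y, (∀ n, y n 0 = x₀ n) ∧ BO T r c Θ y ∧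
      ∀ n, ∀ s ∈ Ico 0 Θ, x n s = y n s := by
    intro Θ hT
    obtain ⟨hT0, y, h0, hy⟩ := hT
    exact ⟨y, h0, hy, fun n s hs => hz s Θ ⟨hT0, y, h0, hy⟩ hs y h0 hy n⟩
  have hx0 : ∀ n, x n 0 = x₀ n := by
    obtain ⟨Θ, hT⟩ := hne
    obtain ⟨y, h0, -, hxy⟩ := hxz Θ hT
    intro n
    rw [hxy n 0 ⟨le_rfl, hT.1⟩, h0]
  have hx0' : ∀ k : ℕ, Sk r k (fun a => x a 0) := by
    intro k
    have : (fun a => x a 0) = x₀ := funext hx0
    rw [this]
    exact hx₀ k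
  have hR : ∀ Θ, BO T r c Θ x → BSol T r c Θ x := fun Θ h =>
    ⟨h.deriv, rapid_ofB hA hB h hx0'⟩
  refine ⟨x, hx0, ?_⟩
  by_cases hbd : BddAbove 𝒯
  · right
    set Θ := sSup 𝒯 with hT
    have hT0 : 0 < Θ := by
      obtain ⟨T', hT'⟩ := hne
      exact lt_of_lt_of_le hT'.1 (le_csSup hbd hT')
    have hRx : BO T r c Θ x := by
      apply bo_of_local
      intro t ht
      obtain ⟨T', hT', htT'⟩ := exists_lt_of_lt_csSup hne ht
      obtain ⟨y, h0, hy, hxy⟩ := hxz T' hT'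
      exact ⟨T', htT', y, hy, hxy⟩
    refine ⟨Θ, hT0, hR Θ hRx, ?_⟩
    rintro ⟨M, hM⟩
    obtain ⟨T', hT', y, hy, hy0⟩ := extendB hA hB hT0 hRx hM
    have : T' ∈ 𝒯 := ⟨hT0.trans hT', y, fun n => by rw [hy0, hx0], hy⟩
    exact absurd (le_csSup hbd this) (not_le.2 hT')
  · left
    intro Θ
    have hRx : BO T r c Θ x := by
      apply bo_of_local
      intro t _
      rw [not_bddAbove_iff] at hbd
      obtain ⟨T', hT', htT'⟩ := hbd t
      obtain ⟨y, h0, hy, hxy⟩ := hxz T' hT'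
      exact ⟨T', htT', y, hy, hxy⟩
    exact hR Θ hRx

end Pool.Agent.Y954.S2
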