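import Pool.Agent.Y5.S2.Defs
import Pool.Agent.Y37.NE.Loc

/-! Linear systems with a block diagonal dissipative matrix: existence and the energy estimate. -/

open Set Filter Topology MeasureTheory

set_option autoImplicit false

namespace Pool.Agent.Y954.S2

open Pool.Agent.Y5.E Pool.Agent.Y5.S2
open Pool.Agent.Y6.N (lin)
open Pool.Agent.Y37.NE

/-- finite linear systems with a forcing term -/
theorem fin_ode {ι : Type} [Fintype ι] (A : ι → ι → ℝ) (θ : ι → ℝ) (F : ι → ℝ → ℝ)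
    (hF : ∀ i, Continuous (F i)) : ∃ y : ι → ℝ → ℝ, (∀ i, y i 0 = θ i) ∧
      ∀ i t, HasDerivAt (y i) (∑ j, A i j * y j t + F i t) t := by
  classical
  let L : (ι → ℝ) →L[ℝ] (ι → ℝ) := LinearMap.toContinuousLinearMap (Matrix.toLin' (Matrix.of A))
  let G : ℝ → ι → ℝ := fun s i => F i s
  have hG : Continuous G := continuous_pi hF
  let E : ℝ → (ι → ℝ) →L[ℝ] (ι → ℝ) := fun t => NormedSpace.exp (t • L)
  have hE : ∀ t, HasDerivAt E (L * E t) t := fun t => hasDerivAt_exp_smul_const' L t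
  have hEc : Continuous E := continuous_iff_continuousAt.2 fun t => (hE t).continuousAt
  have hinv : ∀ t, E t * E (-t) = 1 := by
    intro t
    show NormedSpace.exp (t • L) * NormedSpace.exp ((-t) • L) = 1
    have hcomm : Commute (t • L) ((-t) • L) := by
      apply Commute.smul_left
      apply Commute.smul_right
      exact Commute.refl _
    let _ : NormedAlgebra ℚ ((ι → ℝ) →L[ℝ] (ι → ℝ)) := NormedAlgebra.restrictScalars ℚ ℝ _
    rw [← NormedSpace.exp_add_of_commute hcomm, ← add_smul, add_neg_cancel, zero_smul,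
      NormedSpace.exp_zero]
  have hE0 : E 0 = 1 := by
    show NormedSpace.exp ((0 : ℝ) • L) = 1
    rw [zero_smul, NormedSpace.exp_zero]
  let H : ℝ → ι → ℝ := fun s => E (-s) (G s)
  have hH : Continuous H := (hEc.comp continuous_neg).clm_apply hG
  let y : ℝ → ι → ℝ := fun t => E t (θ + ∫ s in (0 : ℝ)..t, H s)
  have hy : ∀ t, HasDerivAt y (L (y t) + G t) t := by
    intro t
    have h1 : HasDerivAt (fun t => θ + ∫ s in (0 : ℝ)..t, H s) (H t) t :=
      (hH.integral_hasStrictDerivAt 0 t).hasDerivAt.const_add θ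
    have h2 := (hE t).clm_apply h1
    refine h2.congr_deriv ?_
    have h3 : E t (H t) = G t := by
      show E t (E (-t) (G t)) = G t
      have h4 := congrArg (fun f : (ι → ℝ) →L[ℝ] (ι → ℝ) => f (G t)) (hinv t)
      simpa using h4
    rw [h3]
    rfl
  refine ⟨fun i t => y t i, fun i => ?_, fun i t => ?_⟩
  · show E 0 (θ + ∫ s in (0 : ℝ)..0, H s) i = θ i
    rw [hE0, intervalIntegral.integral_same, add_zero]
    rfl
  · have h1 := (hasDerivAt_pi.1 (hy t)) i
    refine h1.congr_deriv ?_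
    rw [Pi.add_apply]
    congr 1

section
variable {I : Type} {T : I → I → ℝ} {d r : I → ℝ} {b : I → ℕ}

/-- the block -/
noncomputable def Bn (hB : Blk T d r b) (n : ℕ) : Finset I := (hB.fin n).toFinset

theorem mem_Bn (hB : Blk T d r b) (n : ℕ) (i : I) : i ∈ Bn hB n ↔ b i = n := by
  rw [Bn, Set.Finite.mem_toFinset]
  rfl

theorem lin_eq (hB : Blk T d r b) {n : ℕ} {i : I} (hi : b i = n) (z : I → ℝ) :
    lin T z i = ∑ j ∈ Bn hB n, T i j * z j := by
  unfold lin
  apply tsum_eq_sum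
  intro j hj
  rw [mem_Bn] at hj
  have : T i j = 0 := by
    by_contra h
    exact hj ((hB.blk i j h).symm.trans hi)
  rw [this, zero_mul]

theorem lin_sub (hB : Blk T d r b) (z y : I → ℝ) (i : I) :
    lin T (fun a => z a - y a) i = lin T z i - lin T y i := by
  rw [lin_eq hB rfl, lin_eq hB rfl, lin_eq hB rfl, ← Finset.sum_sub_distrib]
  exact Finset.sum_congr rfl fun j _ => by ring

/-- solutions of the linear system with a forcing term -/
structure LS (T : I → I → ℝ) (θ : I → ℝ) (F y : I → ℝ → ℝ) : Prop where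
  init : ∀ i, y i 0 = θ i
  deriv : ∀ i t, HasDerivAt (y i) (lin T (fun a => y a t) i + F i t) t

theorem exists_LS (hB : Blk T d r b) (θ : I → ℝ) {F : I → ℝ → ℝ} (hF : ∀ i, Continuous (F i)) :
    ∃ y, LS T θ F y := by
  classical
  have h : ∀ n : ℕ, ∃ y : {i // b i = n} → ℝ → ℝ, (∀ i, y i 0 = θ i) ∧
      ∀ (i : {i // b i = n}) (t : ℝ),
        HasDerivAt (y i) (∑ᶠ j : {i // b i = n}, T i j * y j t + F i t) t := by
    intro n
    have hfin : Finite {i // b i = n} := (hB.fin n).to_subtype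
    have := Fintype.ofFinite {i // b i = n}
    obtain ⟨y, hy0, hy⟩ := fin_ode (fun i j : {i // b i = n} => T i j) (fun i => θ i)
      (fun i => F i) (fun i => hF i)
    refine ⟨y, hy0, fun i t => ?_⟩
    rw [finsum_eq_sum_of_fintype]
    exact hy i t
  choose y hy0 hy using h
  refine ⟨fun i t => y (b i) ⟨i, rfl⟩ t, ⟨fun i => hy0 (b i) ⟨i, rfl⟩, fun i t => ?_⟩⟩
  refine (hy (b i) ⟨i, rfl⟩ t).congr_deriv ?_
  congr 1
  have hfin : Finite {j // b j = b i} := (hB.fin (b i)).to_subtype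
  have := Fintype.ofFinite {j // b j = b i}
  rw [finsum_eq_sum_of_fintype, lin_eq hB rfl]
  symm
  have h2 : ∀ j : {j // b j = b i}, y (b j.1) ⟨j.1, rfl⟩ t = y (b i) j t := by
    rintro ⟨j, hj⟩
    have : ∀ (n : ℕ) (hn : b j = n), y (b j) ⟨j, rfl⟩ t = y n ⟨j, hn⟩ t := by
      intro n hn
      subst hn
      rfl
    exact this _ hj
  rw [Finset.sum_subtype (Bn hB (b i)) (p := fun j => b j = b i) (fun j => mem_Bn hB _ j)]
  exact Finset.sum_congr rfl fun j _ => by rw [h2 j]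

/-- a chosen solution -/
noncomputable def U (T : I → I → ℝ) (θ : I → ℝ) (F : I → ℝ → ℝ) : I → ℝ → ℝ :=
  open Classical in if h : ∃ y, LS T θ F y then h.choose else fun _ _ => 0

theorem U_spec (hB : Blk T d r b) (θ : I → ℝ) {F : I → ℝ → ℝ} (hF : ∀ i, Continuous (F i)) :
    LS T θ F (U T θ F) := by
  have h := exists_LS hB θ hF
  rw [U, dif_pos h]
  exact h.choose_spec

/-- the dissipation in one block -/
theorem blk_diss (hB : Blk T d r b) (k n : ℕ) (y : I → ℝ) :
    ∑ i ∈ Bn hB n, (r i ^ k * y i) * (r i ^ k * lin T y i) ≤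
      -∑ i ∈ Bn hB n, d i * (r i ^ k * y i) ^ 2 := by
  classical
  set z : I → ℝ := fun i => if b i = n then r i ^ k * y i else 0 with hz
  have h := hB.diss n z (fun i hi => if_neg hi)
  have hzi : ∀ i ∈ Bn hB n, z i = r i ^ k * y i := fun i hi => if_pos ((mem_Bn hB n i).1 hi)
  have hz0 : ∀ i, i ∉ Bn hB n → z i = 0 := fun i hi => if_neg (fun h => hi ((mem_Bn hB n i).2 h))
  have h1 : ∑' i, d i * z i ^ 2 = ∑ i ∈ Bn hB n, d i * (r i ^ k * y i) ^ 2 := by
    rw [tsum_eq_sum (s := Bn hB n) (fun i hi => by rw [hz0 i hi]; ring)]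
    exact Finset.sum_congr rfl fun i hi => by rw [hzi i hi]
  have h2 : ∑' p : I × I, T p.1 p.2 * z p.1 * z p.2 =
      ∑ i ∈ Bn hB n, (r i ^ k * y i) * (r i ^ k * lin T y i) := by
    rw [tsum_eq_sum (s := Bn hB n ×ˢ Bn hB n), Finset.sum_product]
    · refine Finset.sum_congr rfl fun i hi => ?_
      rw [lin_eq hB ((mem_Bn hB n i).1 hi), Finset.mul_sum, Finset.mul_sum]
      refine Finset.sum_congr rfl fun j hj => ?_
      have hij : b i = b j := ((mem_Bn hB n i).1 hi).trans ((mem_Bn hB n j).1 hj).symm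
      show T i j * z i * z j = _
      rw [hzi i hi, hzi j hj, ← (hB.const i j hij).2]
      ring
    · rintro ⟨i, j⟩ hp
      rw [Finset.mem_product, not_and_or] at hp
      rcases hp with hp | hp
      · show T i j * z i * z j = 0
        rw [hz0 i hp]; ring
      · show T i j * z i * z j = 0
        rw [hz0 j hp]; ring
  rw [h1, h2] at h
  exact h

/-- the energy estimate in one block -/
theorem block_energy (hB : Blk T d r b) (hd : ∀ i, 0 ≤ d i) (k n : ℕ) {Θ : ℝ}
    {y F : I → ℝ → ℝ} (hF : ∀ i, Continuous (F i))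
    (hy : ∀ i, ∀ t ∈ Icc 0 Θ, HasDerivWithinAt (y i) (lin T (fun a => y a t) i + F i t)
      (Icc 0 Θ) t) {t : ℝ} (ht : t ∈ Icc 0 Θ) :
    ∑ i ∈ Bn hB n, (r i ^ k * y i t) ^ 2 ≤ Real.exp t * (∑ i ∈ Bn hB n, (r i ^ k * y i 0) ^ 2 +
      ∫ s in (0 : ℝ)..t, ∑ i ∈ Bn hB n, (r i ^ k * F i s) ^ 2 / (1 + d i)) := by
  set e : ℝ → ℝ := fun t => ∑ i ∈ Bn hB n, (r i ^ k * y i t) ^ 2 with he
  set f : ℝ → ℝ := fun s => ∑ i ∈ Bn hB n, (r i ^ k * F i s) ^ 2 / (1 + d i) with hf
  have hfc : Continuous f := continuous_finsetSum _ fun i _ =>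
    ((continuous_const.mul (hF i)).pow 2).div_const _
  have hf0 : ∀ s, 0 ≤ f s := fun s => Finset.sum_nonneg fun i _ =>
    div_nonneg (sq_nonneg _) (by linarith [hd i])
  have hed : ∀ t ∈ Icc 0 Θ, HasDerivWithinAt e
      (∑ i ∈ Bn hB n, 2 * (r i ^ k * y i t) *
        (r i ^ k * (lin T (fun a => y a t) i + F i t))) (Icc 0 Θ) t := by
    intro t ht
    have h1 : ∀ i ∈ Bn hB n, HasDerivWithinAt (fun t => (r i ^ k * y i t) ^ 2)
        (2 * (r i ^ k * y i t) * (r i ^ k * (lin T (fun a => y a t) i + F i t))) (Icc 0 Θ) t := by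
      intro i _
      have h2 := ((hy i t ht).const_mul (r i ^ k)).pow 2
      refine h2.congr_deriv ?_
      push_cast
      ring
    exact HasDerivWithinAt.fun_sum h1
  have hle : ∀ t, ∑ i ∈ Bn hB n, 2 * (r i ^ k * y i t) *
      (r i ^ k * (lin T (fun a => y a t) i + F i t)) ≤ e t + f t := by
    intro t
    have h1 := blk_diss hB k n (fun a => y a t)
    have h2 : ∀ i ∈ Bn hB n, 2 * (r i ^ k * y i t) * (r i ^ k * F i t) ≤
        (1 + d i) * (r i ^ k * y i t) ^ 2 + (r i ^ k * F i t) ^ 2 / (1 + d i) := by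
      intro i _
      have hd1 : 0 < 1 + d i := by linarith [hd i]
      have h3 : 0 ≤ ((1 + d i) * (r i ^ k * y i t) - r i ^ k * F i t) ^ 2 / (1 + d i) :=
        div_nonneg (sq_nonneg _) hd1.le
      have h4 : ((1 + d i) * (r i ^ k * y i t) - r i ^ k * F i t) ^ 2 / (1 + d i) =
          (1 + d i) * (r i ^ k * y i t) ^ 2 + (r i ^ k * F i t) ^ 2 / (1 + d i) -
            2 * (r i ^ k * y i t) * (r i ^ k * F i t) := by
        field_simp
        ring
      linarith
    have h5 := Finset.sum_le_sum h2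
    rw [Finset.sum_add_distrib] at h5
    have h6 : ∑ i ∈ Bn hB n, 2 * (r i ^ k * y i t) *
        (r i ^ k * (lin T (fun a => y a t) i + F i t)) =
        2 * ∑ i ∈ Bn hB n, (r i ^ k * y i t) * (r i ^ k * lin T (fun a => y a t) i) +
        ∑ i ∈ Bn hB n, 2 * (r i ^ k * y i t) * (r i ^ k * F i t) := by
      rw [Finset.mul_sum, ← Finset.sum_add_distrib]
      exact Finset.sum_congr rfl fun i _ => by ring
    have h7 : ∑ i ∈ Bn hB n, (1 + d i) * (r i ^ k * y i t) ^ 2 =
        e t + ∑ i ∈ Bn hB n, d i * (r i ^ k * y i t) ^ 2 := by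
      rw [he, ← Finset.sum_add_distrib]
      exact Finset.sum_congr rfl fun i _ => by ring
    have h8 : 0 ≤ ∑ i ∈ Bn hB n, d i * (r i ^ k * y i t) ^ 2 :=
      Finset.sum_nonneg fun i _ => mul_nonneg (hd i) (sq_nonneg _)
    have h9 : f t = ∑ i ∈ Bn hB n, (r i ^ k * F i t) ^ 2 / (1 + d i) := rfl
    rw [h6]
    linarith
  set g : ℝ → ℝ := fun t => Real.exp (-t) * e t - ∫ s in (0 : ℝ)..t, f s with hg
  have hgd : ∀ t ∈ Icc 0 Θ, HasDerivWithinAt g
      (Real.exp (-t) * -1 * e t + Real.exp (-t) * (∑ i ∈ Bn hB n, 2 * (r i ^ k * y i t) *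
        (r i ^ k * (lin T (fun a => y a t) i + F i t))) - f t) (Icc 0 Θ) t := by
    intro t ht
    have h1 : HasDerivAt (fun t : ℝ => Real.exp (-t)) (Real.exp (-t) * -1) t := by
      have := (hasDerivAt_id t).neg.exp
      simpa using this
    have h2 : HasDerivAt (fun t => ∫ s in (0 : ℝ)..t, f s) (f t) t :=
      (hfc.integral_hasStrictDerivAt 0 t).hasDerivAt
    exact (h1.hasDerivWithinAt.mul (hed t ht)).sub h2.hasDerivWithinAt
  have hanti : AntitoneOn g (Icc 0 Θ) := by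
    apply antitoneOn_of_hasDerivWithinAt_nonpos (convex_Icc _ _)
      (fun t ht => (hgd t ht).continuousWithinAt)
      (fun t ht => (hgd t (interior_subset ht)).mono interior_subset)
    intro t ht
    have ht' := interior_subset ht
    have h1 := hle t
    have h2 : Real.exp (-t) ≤ 1 := by
      rw [Real.exp_le_one_iff]
      linarith [ht'.1]
    have h3 := Real.exp_pos (-t)
    have h4 := hf0 t
    nlinarith
  have h0Θ : (0 : ℝ) ∈ Icc 0 Θ := ⟨le_rfl, ht.1.trans ht.2⟩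
  have h1 := hanti h0Θ ht ht.1
  simp only [hg, neg_zero, Real.exp_zero, one_mul, intervalIntegral.integral_same, sub_zero] at h1
  have h2 : Real.exp t * Real.exp (-t) = 1 := by rw [← Real.exp_add]; simp
  have h3 := Real.exp_pos t
  calc e t = Real.exp t * (Real.exp (-t) * e t) := by rw [← mul_assoc, h2, one_mul]
    _ ≤ Real.exp t * (e 0 + ∫ s in (0 : ℝ)..t, f s) := by
        apply mul_le_mul_of_nonneg_left _ h3.le
        linarith

/-- the energy estimate -/
theorem energy (hB : Blk T d r b) (hd : ∀ i, 0 ≤ d i) (k : ℕ) {Θ : ℝ}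
    {y F : I → ℝ → ℝ} (hF : ∀ i, Continuous (F i))
    (hy : ∀ i, ∀ t ∈ Icc 0 Θ, HasDerivWithinAt (y i) (lin T (fun a => y a t) i + F i t)
      (Icc 0 Θ) t) (h0 : Sk r k (fun a => y a 0)) {κ : ℝ → ℝ} (hκ : Continuous κ) {t : ℝ}
    (ht : t ∈ Icc 0 Θ)
    (hb : ∀ s ∈ Icc 0 t, Summable (fun i => (r i ^ k * F i s) ^ 2 / (1 + d i)) ∧
      ∑' i, (r i ^ k * F i s) ^ 2 / (1 + d i) ≤ κ s) :
    Sk r k (fun a => y a t) ∧ nk r k (fun a => y a t) ≤
      Real.exp t * (nk r k (fun a => y a 0) + ∫ s in (0 : ℝ)..t, κ s) := by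
  classical
  apply of_finset
  intro S
  have hfc : ∀ i, Continuous fun s => (r i ^ k * F i s) ^ 2 / (1 + d i) := fun i =>
    ((continuous_const.mul (hF i)).pow 2).div_const _
  set N : Finset ℕ := S.image b with hN
  set S' : Finset I := N.biUnion (Bn hB) with hS'
  have hdisj : (N : Set ℕ).PairwiseDisjoint (Bn hB) := by
    intro m _ n _ hmn
    rw [Function.onFun, Finset.disjoint_left]
    intro i hi hi'
    rw [mem_Bn] at hi hi'
    exact hmn (hi.symm.trans hi')
  have hsub : S ⊆ S' := by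
    intro i hi
    rw [hS', Finset.mem_biUnion]
    exact ⟨b i, Finset.mem_image_of_mem b hi, (mem_Bn hB _ _).2 rfl⟩
  have h1 : ∑ i ∈ S, (r i ^ k * y i t) ^ 2 ≤ ∑ n ∈ N, ∑ i ∈ Bn hB n, (r i ^ k * y i t) ^ 2 := by
    rw [← Finset.sum_biUnion hdisj]
    exact Finset.sum_le_sum_of_subset_of_nonneg hsub fun _ _ _ => sq_nonneg _
  have h2 : ∑ n ∈ N, ∑ i ∈ Bn hB n, (r i ^ k * y i t) ^ 2 ≤
      ∑ n ∈ N, Real.exp t * (∑ i ∈ Bn hB n, (r i ^ k * y i 0) ^ 2 +
      ∫ s in (0 : ℝ)..t, ∑ i ∈ Bn hB n, (r i ^ k * F i s) ^ 2 / (1 + d i)) :=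
    Finset.sum_le_sum fun n _ => block_energy hB hd k n hF hy ht
  have h3 : ∑ n ∈ N, Real.exp t * (∑ i ∈ Bn hB n, (r i ^ k * y i 0) ^ 2 +
      ∫ s in (0 : ℝ)..t, ∑ i ∈ Bn hB n, (r i ^ k * F i s) ^ 2 / (1 + d i)) =
      Real.exp t * (∑ i ∈ S', (r i ^ k * y i 0) ^ 2 +
      ∫ s in (0 : ℝ)..t, ∑ i ∈ S', (r i ^ k * F i s) ^ 2 / (1 + d i)) := by
    rw [← Finset.mul_sum, Finset.sum_add_distrib, Finset.sum_biUnion hdisj,
      ← intervalIntegral.integral_finsetSum]
    · congr 2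
      apply intervalIntegral.integral_congr
      intro s _
      exact (Finset.sum_biUnion hdisj).symm
    · intro n _
      exact (continuous_finsetSum _ fun i _ => hfc i).intervalIntegrable _ _
  have h4 : ∑ i ∈ S', (r i ^ k * y i 0) ^ 2 ≤ nk r k (fun a => y a 0) := finset_le h0 S'
  have h5 : ∫ s in (0 : ℝ)..t, ∑ i ∈ S', (r i ^ k * F i s) ^ 2 / (1 + d i) ≤
      ∫ s in (0 : ℝ)..t, κ s := by
    apply intervalIntegral.integral_mono_on ht.1
      ((continuous_finsetSum _ fun i _ => hfc i).intervalIntegrable _ _)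
      (hκ.intervalIntegrable _ _)
    intro s hs
    refine le_trans ?_ (hb s hs).2
    exact (hb s hs).1.sum_le_tsum S' fun i _ =>
      div_nonneg (sq_nonneg _) (by linarith [hd i])
  have h6 := Real.exp_pos t
  calc _ ≤ _ := h1
    _ ≤ _ := h2
    _ = _ := h3
    _ ≤ _ := mul_le_mul_of_nonneg_left (by linarith) h6.le

end

end Pool.Agent.Y954.S2
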