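import Pool.Agent.Y954.S2.Lin

/-! Uniqueness, local existence and persistence of regularity for quadratic systems with a block
diagonal dissipative linear term. -/

open Set Filter Topology MeasureTheory

set_option autoImplicit false

namespace Pool.Agent.Y954.S2

open Pool.Agent.Y5.E Pool.Agent.Y5.S2
open Pool.Agent.Y6.N (lin)
open Pool.Agent.Y37.NE

section
variable {I : Type} {T : I → I → ℝ} {d r : I → ℝ} {b : I → ℕ} {c : I → I → I → ℝ}

/-- a solution on a closed interval -/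
structure BC (T : I → I → ℝ) (r : I → ℝ) (c : I → I → I → ℝ) (Θ : ℝ) (z : I → ℝ → ℝ) :
    Prop where
  deriv : ∀ i, ∀ t ∈ Icc 0 Θ, HasDerivWithinAt (z i)
    (lin T (fun a => z a t) i + bl c (fun a => z a t) (fun a => z a t) i) (Icc 0 Θ) t
  bdd : ∃ M, ∀ t ∈ Icc 0 Θ, Sk r 1 (fun a => z a t) ∧ nk r 1 (fun a => z a t) ≤ M

theorem BC.mono {Θ Θ' : ℝ} {x : I → ℝ → ℝ} (h : BC T r c Θ x) (hT : Θ' ≤ Θ) :
    BC T r c Θ' x := by
  obtain ⟨M, hM⟩ := h.bdd
  exact ⟨fun n t ht => (h.deriv n t ⟨ht.1, ht.2.trans hT⟩).mono (Icc_subset_Icc_right hT),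
    M, fun t ht => hM t ⟨ht.1, ht.2.trans hT⟩⟩

/-- translation in time -/
theorem BC.shift {Θ t₀ : ℝ} {x : I → ℝ → ℝ} (h : BC T r c Θ x) (ht₀ : 0 ≤ t₀) :
    BC T r c (Θ - t₀) (fun n t => x n (t₀ + t)) := by
  obtain ⟨M, hM⟩ := h.bdd
  refine ⟨fun n t ht => ?_, M, fun t ht => hM _ ⟨by linarith [ht.1], by linarith [ht.2]⟩⟩
  have h1 := h.deriv n (t₀ + t) ⟨by linarith [ht.1], by linarith [ht.2]⟩
  have h2 : HasDerivWithinAt (fun r => t₀ + r) 1 (Icc 0 (Θ - t₀)) t :=
    (hasDerivWithinAt_id t _).const_add t₀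
  have h3 := HasDerivWithinAt.scomp (h := fun r => t₀ + r) (g₁ := x n) (t' := Icc 0 Θ) t h1 h2
    (fun r hr => ⟨by linarith [hr.1], by linarith [hr.2]⟩)
  rw [one_smul] at h3
  exact h3

theorem BC.xs {Θ : ℝ} (hT : 0 ≤ Θ) {z : I → ℝ → ℝ} (h : BC T r c Θ z) {M : ℝ}
    (hM : ∀ t ∈ Icc 0 Θ, Sk r 1 (fun a => z a t) ∧ nk r 1 (fun a => z a t) ≤ M) :
    Xs r M (fun a t => z a (cl Θ t)) where
  cont i := by
    have h1 : ContinuousOn (z i) (Icc 0 Θ) := fun t ht => (h.deriv i t ht).continuousWithinAt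
    exact h1.comp_continuous (cl_cont Θ) (cl_mem hT)
  sk t := (hM _ (cl_mem hT t)).1
  le t := (hM _ (cl_mem hT t)).2

theorem bc_uniq (hA : Adm d r c) (hB : Blk T d r b) {Θ : ℝ} {x y : I → ℝ → ℝ}
    (hx : BC T r c Θ x) (hy : BC T r c Θ y) (h0 : ∀ n, x n 0 = y n 0) :
    ∀ n, ∀ t ∈ Icc 0 Θ, x n t = y n t := by
  obtain ⟨M, hM⟩ := hx.bdd
  obtain ⟨M', hM'⟩ := hy.bdd
  intro n t₁ ht₁
  have hT : 0 ≤ Θ := ht₁.1.trans ht₁.2
  have hM0 : 0 ≤ M := (nk_nonneg r 1 _).trans (hM 0 ⟨le_rfl, hT⟩).2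
  have hM0' : 0 ≤ M' := (nk_nonneg r 1 _).trans (hM' 0 ⟨le_rfl, hT⟩).2
  have hX := hx.xs hT hM
  have hY := hy.xs hT hM'
  obtain ⟨C, hC0, hC⟩ := diff_est hA
  set F : I → ℝ → ℝ := fun i s =>
    bl c (fun a => x a (cl Θ s)) (fun a => x a (cl Θ s)) i -
    bl c (fun a => y a (cl Θ s)) (fun a => y a (cl Θ s)) i with hF
  have hFc : ∀ i, Continuous (F i) := fun i => (bl_cont hA hX hX i).sub (bl_cont hA hY hY i)
  set w : I → ℝ → ℝ := fun i t => x i t - y i t with hw
  have hwd : ∀ i, ∀ t ∈ Icc 0 Θ, HasDerivWithinAt (w i) (lin T (fun a => w a t) i + F i t)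
      (Icc 0 Θ) t := by
    intro i t ht
    have h1 := (hx.deriv i t ht).sub (hy.deriv i t ht)
    refine h1.congr_deriv ?_
    simp only [hw, hF, cl_eq ht]
    rw [lin_sub hB]
    ring
  have hw0 : (fun a => w a 0) = fun _ => 0 := by
    funext a
    simp only [hw]
    rw [h0 a, sub_self]
  have hw00 : nk r 1 (fun a => w a 0) = 0 := by
    rw [hw0]; simp [nk]
  have hw0S : Sk r 1 (fun a => w a 0) := by
    rw [hw0]; exact Sk_zero _ _
  set K := C * (M + M') with hK
  have hK0 : 0 ≤ K := by positivity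
  set lam := 2 * Real.exp Θ * K + 1 with hlam
  have hlam0 : 0 < lam := by positivity
  set A := 2 * M + 2 * M' with hAdef
  have hA0 : 0 ≤ A := by positivity
  have key : ∀ m : ℕ, ∀ t ∈ Icc 0 Θ, Sk r 1 (fun a => w a t) ∧
      nk r 1 (fun a => w a t) ≤ A * (1 / 2) ^ m * Real.exp (lam * t) := by
    intro m
    induction m with
    | zero =>
      intro t ht
      obtain ⟨h1, h2⟩ := sub_le (hM t ht).1 (hM' t ht).1
      refine ⟨h1, h2.trans ?_⟩
      have h3 := (hM t ht).2
      have h4 := (hM' t ht).2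
      have h5 : 1 ≤ Real.exp (lam * t) := Real.one_le_exp (mul_nonneg hlam0.le ht.1)
      rw [pow_zero, mul_one]
      nlinarith
    | succ m ih =>
      intro t ht
      have hκ : Continuous fun s => K * (A * (1 / 2) ^ m) * Real.exp (lam * s) := by fun_prop
      obtain ⟨h1, h1'⟩ := energy hB hA.d0 1 hFc hwd hw0S hκ ht (fun s hs => by
          have hs' : s ∈ Icc 0 Θ := ⟨hs.1, hs.2.trans ht.2⟩
          obtain ⟨h2, h3⟩ := hC (fun a => x a s) (fun a => y a s) (hM s hs').1 (hM' s hs').1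
          simp only [hF, cl_eq hs']
          refine ⟨h2, h3.trans ?_⟩
          have h4 := (ih s hs').2
          have h5 := (hM s hs').2
          have h6 := (hM' s hs').2
          have h7 := nk_nonneg r 1 (fun a => x a s - y a s)
          calc C * ((nk r 1 (fun a => x a s) + nk r 1 (fun a => y a s)) *
                nk r 1 (fun a => x a s - y a s)) ≤
                C * ((M + M') * (A * (1 / 2) ^ m * Real.exp (lam * s))) := by
                have h8 := nk_nonneg r 1 (fun a => x a s)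
                have h9 := nk_nonneg r 1 (fun a => y a s)
                gcongr
            _ = _ := by rw [hK]; ring)
      have h2 : ∫ s in (0 : ℝ)..t, K * (A * (1 / 2) ^ m) * Real.exp (lam * s) ≤
          K * (A * (1 / 2) ^ m) * (Real.exp (lam * t) / lam) := by
        rw [intervalIntegral.integral_const_mul]
        apply mul_le_mul_of_nonneg_left _ (by positivity)
        have h3 : ∀ s ∈ uIcc 0 t, HasDerivAt (fun s : ℝ => Real.exp (lam * s) / lam)
            (Real.exp (lam * s)) s := by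
          intro s _
          have h4 : HasDerivAt (fun r : ℝ => Real.exp (lam * r)) (Real.exp (lam * s) * lam) s := by
            have := ((hasDerivAt_id s).const_mul lam).exp
            simpa using this
          refine (h4.div_const lam).congr_deriv ?_
          field_simp
        rw [intervalIntegral.integral_eq_sub_of_hasDerivAt h3
          (Continuous.intervalIntegrable (by fun_prop) _ _)]
        have : 0 ≤ Real.exp (lam * 0) / lam := by positivity
        linarith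
      refine ⟨h1, h1'.trans ?_⟩
      rw [hw00, zero_add]
      calc Real.exp t * ∫ s in (0 : ℝ)..t, K * (A * (1 / 2) ^ m) * Real.exp (lam * s) ≤
            Real.exp Θ * (K * (A * (1 / 2) ^ m) * (Real.exp (lam * t) / lam)) := by
            apply mul_le_mul _ h2 _ (by positivity)
            · exact Real.exp_le_exp.2 ht.2
            · exact intervalIntegral.integral_nonneg ht.1 fun s _ => by positivity
        _ = (Real.exp Θ * K / lam) * (A * (1 / 2) ^ m * Real.exp (lam * t)) := by ring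
        _ ≤ (1 / 2) * (A * (1 / 2) ^ m * Real.exp (lam * t)) := by
            apply mul_le_mul_of_nonneg_right _ (by positivity)
            rw [div_le_iff₀ hlam0, hlam]
            linarith
        _ = A * (1 / 2) ^ (m + 1) * Real.exp (lam * t) := by ring
  have h1 : ∀ m : ℕ, (x n t₁ - y n t₁) ^ 2 ≤ A * (1 / 2) ^ m * Real.exp (lam * t₁) := by
    intro m
    obtain ⟨h2, h3⟩ := key m t₁ ht₁
    have h4 := abs_le_nk hA.r1 h2 n
    have h5 := sq_abs (x n t₁ - y n t₁)
    rw [← h5]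
    refine le_trans ?_ h3
    have h6 := Real.sq_sqrt (nk_nonneg r 1 (fun a => w a t₁))
    rw [← h6]
    exact pow_le_pow_left₀ (abs_nonneg _) h4 2
  have h2 : Tendsto (fun m : ℕ => A * (1 / 2 : ℝ) ^ m * Real.exp (lam * t₁)) atTop (𝓝 0) := by
    have h3 := ((tendsto_pow_atTop_nhds_zero_of_lt_one (r := (1 / 2 : ℝ)) (by norm_num)
      (by norm_num)).const_mul A).mul_const (Real.exp (lam * t₁))
    simpa using h3
  have h3 : (x n t₁ - y n t₁) ^ 2 ≤ 0 := ge_of_tendsto' h2 h1
  have h4 : x n t₁ - y n t₁ = 0 := by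
    have := le_antisymm h3 (sq_nonneg _)
    exact pow_eq_zero_iff (two_ne_zero) |>.1 this
  linarith

/-- the Picard map -/
noncomputable def Pm (T : I → I → ℝ) (c : I → I → I → ℝ) (τ : ℝ) (z₀ : I → ℝ) (z : I → ℝ → ℝ)
    (i : I) (t : ℝ) : ℝ :=
  U T z₀ (fun i s => bl c (fun a => z a s) (fun a => z a s) i) i (cl τ t)

theorem LS.cont {θ : I → ℝ} {F y : I → ℝ → ℝ} (h : LS T θ F y) (i : I) : Continuous (y i) :=
  continuous_iff_continuousAt.2 fun t => (h.deriv i t).continuousAt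

theorem Pm_cont (hA : Adm d r c) (hB : Blk T d r b) {M : ℝ} {z : I → ℝ → ℝ} (hz : Xs r M z)
    (τ : ℝ) (z₀ : I → ℝ) (i : I) : Continuous (Pm T c τ z₀ z i) := by
  unfold Pm
  exact ((U_spec hB z₀ fun i => bl_cont hA hz hz i).cont i).comp (cl_cont τ)

theorem Pm_bound (hA : Adm d r c) (hB : Blk T d r b) {C : ℝ} (hC0 : 0 ≤ C) {k : ℕ}
    (hC : ∀ z y : I → ℝ, Sk r (k + 1) z →
    Sk r (k + 1) y → Summable (fun i => (r i ^ (k + 1) * bl c z y i) ^ 2 / (1 + d i)) ∧
    ∑' i, (r i ^ (k + 1) * bl c z y i) ^ 2 / (1 + d i) ≤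
      C * (nk r (k + 1) z * nk r 1 y + nk r 1 z * nk r (k + 1) y)) {τ : ℝ} (hτ : 0 ≤ τ)
    (hτ2 : Real.exp τ ≤ 2)
    {z₀ : I → ℝ} (h0 : Sk r (k + 1) z₀) {M A : ℝ} {z : I → ℝ → ℝ} (hz : Xs r M z)
    (hk : ∀ t, Sk r (k + 1) (fun a => z a t) ∧ nk r (k + 1) (fun a => z a t) ≤ A) (t : ℝ) :
    Sk r (k + 1) (fun a => Pm T c τ z₀ z a t) ∧ nk r (k + 1) (fun a => Pm T c τ z₀ z a t) ≤
      2 * (nk r (k + 1) z₀ + τ * (C * (A * M + M * A))) := by
  have ht := cl_mem hτ t
  have hM : 0 ≤ M := (nk_nonneg r 1 _).trans (hz.le 0)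
  have hA0 : 0 ≤ A := (nk_nonneg r (k + 1) _).trans (hk 0).2
  have hU := U_spec hB z₀ (F := fun i s => bl c (fun a => z a s) (fun a => z a s) i)
    (fun i => bl_cont hA hz hz i)
  have hU0 : (fun a => U T z₀ (fun i s => bl c (fun a => z a s) (fun a => z a s) i) a 0) = z₀ :=
    funext hU.init
  obtain ⟨h1, h2⟩ := energy hB hA.d0 (k + 1) (Θ := τ)
    (F := fun i s => bl c (fun a => z a s) (fun a => z a s) i) (fun i => bl_cont hA hz hz i)
    (fun i t _ => (hU.deriv i t).hasDerivWithinAt) (by rw [hU0]; exact h0)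
    (κ := fun _ => C * (A * M + M * A)) continuous_const ht
    (fun s _ => by
        obtain ⟨h4, h5⟩ := hC (fun a => z a s) (fun a => z a s) (hk s).1 (hk s).1
        refine ⟨h4, h5.trans ?_⟩
        have h6 := (hk s).2
        have h7 := hz.le s
        have h8 := nk_nonneg r (k + 1) (fun a => z a s)
        have h9 := nk_nonneg r 1 (fun a => z a s)
        gcongr)
  refine ⟨h1, h2.trans ?_⟩
  rw [hU0, intervalIntegral.integral_const, sub_zero, smul_eq_mul]
  have h3 : Real.exp (cl τ t) ≤ 2 := (Real.exp_le_exp.2 ht.2).trans hτ2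
  have h4 := nk_nonneg r (k + 1) z₀
  have h5 : 0 ≤ C * (A * M + M * A) := by positivity
  have h6 := ht.1
  have h7 := ht.2
  gcongr

theorem Pm_diff (hA : Adm d r c) (hB : Blk T d r b) {C : ℝ} (hC0 : 0 ≤ C)
    (hC : ∀ z y : I → ℝ, Sk r 1 z →
    Sk r 1 y → Summable (fun i => (r i ^ 1 * (bl c z z i - bl c y y i)) ^ 2 / (1 + d i)) ∧
    ∑' i, (r i ^ 1 * (bl c z z i - bl c y y i)) ^ 2 / (1 + d i) ≤
      C * ((nk r 1 z + nk r 1 y) * nk r 1 (fun a => z a - y a))) {τ : ℝ} (hτ : 0 ≤ τ)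
    (hτ2 : Real.exp τ ≤ 2)
    (z₀ : I → ℝ) {M δ : ℝ} {z y : I → ℝ → ℝ} (hz : Xs r M z) (hy : Xs r M y)
    (hδ : ∀ t, nk r 1 (fun a => z a t - y a t) ≤ δ) (t : ℝ) :
    Sk r 1 (fun a => Pm T c τ z₀ z a t - Pm T c τ z₀ y a t) ∧
    nk r 1 (fun a => Pm T c τ z₀ z a t - Pm T c τ z₀ y a t) ≤
      2 * (τ * (C * ((M + M) * δ))) := by
  have ht := cl_mem hτ t
  have hM : 0 ≤ M := (nk_nonneg r 1 _).trans (hz.le 0)
  have hδ0 : 0 ≤ δ := (nk_nonneg r 1 _).trans (hδ 0)
  have hU := U_spec hB z₀ (F := fun i s => bl c (fun a => z a s) (fun a => z a s) i)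
    (fun i => bl_cont hA hz hz i)
  have hV := U_spec hB z₀ (F := fun i s => bl c (fun a => y a s) (fun a => y a s) i)
    (fun i => bl_cont hA hy hy i)
  set u := U T z₀ (fun i s => bl c (fun a => z a s) (fun a => z a s) i) with hu
  set v := U T z₀ (fun i s => bl c (fun a => y a s) (fun a => y a s) i) with hv
  have hw0 : (fun a => u a 0 - v a 0) = fun _ => 0 := by
    funext a
    rw [hU.init, hV.init, sub_self]
  have hw00 : nk r 1 (fun a => u a 0 - v a 0) = 0 := by
    rw [hw0]; simp [nk]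
  have hw0S : Sk r 1 (fun a => u a 0 - v a 0) := by
    rw [hw0]; exact Sk_zero _ _
  obtain ⟨h1, h2⟩ := energy hB hA.d0 1 (Θ := τ) (y := fun i t => u i t - v i t)
    (F := fun i s => bl c (fun a => z a s) (fun a => z a s) i -
      bl c (fun a => y a s) (fun a => y a s) i)
    (fun i => (bl_cont hA hz hz i).sub (bl_cont hA hy hy i))
    (fun i t _ => by
      refine ((hU.deriv i t).sub (hV.deriv i t)).hasDerivWithinAt.congr_deriv ?_
      rw [lin_sub hB]
      ring) hw0S
    (κ := fun _ => C * ((M + M) * δ)) continuous_const ht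
    (fun s _ => by
      obtain ⟨h4, h5⟩ := hC (fun a => z a s) (fun a => y a s) (hz.sk s) (hy.sk s)
      refine ⟨h4, h5.trans ?_⟩
      have h6 := hz.le s
      have h7 := hy.le s
      have h8 := nk_nonneg r 1 (fun a => z a s)
      have h9 := nk_nonneg r 1 (fun a => y a s)
      have h10 := nk_nonneg r 1 (fun a => z a s - y a s)
      have h11 := hδ s
      gcongr)
  refine ⟨h1, h2.trans ?_⟩
  rw [hw00, zero_add, intervalIntegral.integral_const, sub_zero, smul_eq_mul]
  have h3 : Real.exp (cl τ t) ≤ 2 := (Real.exp_le_exp.2 ht.2).trans hτ2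
  have h5 : 0 ≤ C * ((M + M) * δ) := by positivity
  have h6 := ht.1
  have h7 := ht.2
  gcongr

/-- the Picard iterates -/
noncomputable def itB (T : I → I → ℝ) (c : I → I → I → ℝ) (τ : ℝ) (z₀ : I → ℝ) : ℕ → I → ℝ → ℝ
  | 0 => fun i _ => z₀ i
  | n + 1 => Pm T c τ z₀ (itB T c τ z₀ n)

/-- local existence -/
theorem local_exB (hA : Adm d r c) (hB : Blk T d r b) (k : ℕ) (M₀ : ℝ) :
    ∃ τ, 0 < τ ∧ ∀ z₀ : I → ℝ,
    Sk r (k + 1) z₀ → nk r 1 z₀ ≤ M₀ → ∃ z : I → ℝ → ℝ, (∀ i, z i 0 = z₀ i) ∧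
      BC T r c τ z ∧ ∀ t ∈ Icc 0 τ, Sk r (k + 1) (fun a => z a t) ∧
        nk r (k + 1) (fun a => z a t) ≤ 4 * nk r (k + 1) z₀ := by
  obtain ⟨C₀, hC00, hC₀⟩ := est' hA 0
  obtain ⟨C₁, hC10, hC₁⟩ := est' hA k
  obtain ⟨C₂, hC20, hC₂⟩ := diff_est hA
  simp only [zero_add] at hC₀
  set M := |M₀| with hMdef
  have hM : 0 ≤ M := abs_nonneg _
  set K := C₀ + C₁ + C₂ with hK
  have hK0 : 0 ≤ K := by positivity
  set τ := 1 / (256 * (K * M + 1)) with hτdef
  have hτ : 0 < τ := by positivity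
  have hτK : τ * (K * M) ≤ 1 / 256 := by
    rw [hτdef, div_mul_eq_mul_div, one_mul, div_le_div_iff₀ (by positivity) (by norm_num)]
    linarith
  have hτ1 : τ ≤ 1 / 256 := by
    rw [hτdef]
    apply one_div_le_one_div_of_le (by norm_num)
    have : 0 ≤ K * M := by positivity
    linarith
  have hτ2 : Real.exp τ ≤ 2 := by
    have h1 : Real.exp τ ≤ Real.exp (1 / 2) := Real.exp_le_exp.2 (by linarith)
    have h2 : Real.exp (1 / 2) ≤ 2 := by
      have h3 : Real.exp (1 / 2) ^ 2 = Real.exp 1 := by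
        rw [← Real.exp_nat_mul]; norm_num
      have h4 := Real.exp_one_lt_d9
      have h5 := Real.exp_pos (1 / 2)
      nlinarith
    exact h1.trans h2
  have hsm : ∀ C, C ≤ K → ∀ x : ℝ, 0 ≤ x → τ * (C * (M * x)) ≤ 1 / 256 * x := by
    intro C hC x hx
    calc τ * (C * (M * x)) = τ * (C * M) * x := by ring
      _ ≤ τ * (K * M) * x := by gcongr
      _ ≤ 1 / 256 * x := by gcongr
  refine ⟨τ, hτ, fun z₀ hk0 hM0 => ?_⟩
  have h10 : Sk r 1 z₀ := Sk_mono hA.r1 (by omega) hk0
  have hM0' : nk r 1 z₀ ≤ M := hM0.trans (le_abs_self _)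
  set N := nk r (k + 1) z₀ with hN
  have hN0 : 0 ≤ N := nk_nonneg _ _ _
  set u := itB T c τ z₀ with hu
  -- the iterates are bounded
  have hinv : ∀ n, Xs r (4 * M) (u n) ∧ ∀ t, Sk r (k + 1) (fun a => u n a t) ∧
      nk r (k + 1) (fun a => u n a t) ≤ 4 * N := by
    intro n
    induction n with
    | zero =>
      refine ⟨⟨fun i => continuous_const, fun t => h10, fun t => ?_⟩, fun t => ⟨hk0, ?_⟩⟩
      · show nk r 1 z₀ ≤ 4 * M
        linarith
      · show nk r (k + 1) z₀ ≤ 4 * N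
        linarith
    | succ n ih =>
      have hb := Pm_bound hA hB hC10 hC₁ hτ.le hτ2 hk0 ih.1 ih.2
      have hb1 := Pm_bound (k := 0) hA hB hC00 (by simpa only [zero_add] using hC₀) hτ.le hτ2
        (by simpa only [zero_add] using h10) ih.1
        (fun t => ⟨by simpa only [zero_add] using ih.1.sk t,
          by simpa only [zero_add] using ih.1.le t⟩)
      simp only [zero_add] at hb1
      refine ⟨⟨fun i => Pm_cont hA hB ih.1 τ z₀ i, fun t => (hb1 t).1, fun t => ?_⟩,
        fun t => ⟨(hb t).1, ?_⟩⟩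
      · refine (hb1 t).2.trans ?_
        have h1 := hsm C₀ (by rw [hK]; linarith) (32 * M) (by positivity)
        have h2 : C₀ * (4 * M * (4 * M) + 4 * M * (4 * M)) = C₀ * (M * (32 * M)) := by ring
        rw [h2]
        linarith
      · refine (hb t).2.trans ?_
        have h1 := hsm C₁ (by rw [hK]; linarith) (32 * N) (by positivity)
        have h2 : C₁ * (4 * N * (4 * M) + 4 * M * (4 * N)) = C₁ * (M * (32 * N)) := by ring
        rw [h2]
        linarith
  have hcontr : ∀ {z y : I → ℝ → ℝ} {δ : ℝ}, Xs r (4 * M) z → Xs r (4 * M) y →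
      (∀ t, nk r 1 (fun a => z a t - y a t) ≤ δ) → ∀ t,
      Sk r 1 (fun a => Pm T c τ z₀ z a t - Pm T c τ z₀ y a t) ∧
      nk r 1 (fun a => Pm T c τ z₀ z a t - Pm T c τ z₀ y a t) ≤ δ * (1 / 4) := by
    intro z y δ hz hy hδ t
    have hδ0 : 0 ≤ δ := (nk_nonneg r 1 _).trans (hδ 0)
    obtain ⟨h1, h2⟩ := Pm_diff hA hB hC20 hC₂ hτ.le hτ2 z₀ hz hy hδ t
    refine ⟨h1, h2.trans ?_⟩
    have h3 := hsm C₂ (by rw [hK]; linarith) (8 * δ) (by positivity)
    have h4 : C₂ * ((4 * M + 4 * M) * δ) = C₂ * (M * (8 * δ)) := by ring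
    rw [h4]
    linarith
  have hstep : ∀ n t, Sk r 1 (fun a => u (n + 1) a t - u n a t) ∧
      nk r 1 (fun a => u (n + 1) a t - u n a t) ≤ 16 * M * (1 / 4) ^ n := by
    intro n
    induction n with
    | zero =>
      intro t
      obtain ⟨h1, h2⟩ := sub_le ((hinv 1).1.sk t) ((hinv 0).1.sk t)
      refine ⟨h1, h2.trans ?_⟩
      have h3 := (hinv 1).1.le t
      have h4 := (hinv 0).1.le t
      rw [pow_zero, mul_one]
      linarith
    | succ n ih =>
      intro t
      obtain ⟨h1, h2⟩ := hcontr (hinv (n + 1)).1 (hinv n).1 (fun t => (ih t).2) t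
      refine ⟨h1, h2.trans (le_of_eq ?_)⟩
      rw [pow_succ]
      ring
  have hcau : ∀ l n t, Sk r 1 (fun a => u n a t - u (n + l) a t) ∧
      nk r 1 (fun a => u n a t - u (n + l) a t) ≤ 64 * M * (1 / 4) ^ n := by
    intro l
    induction l with
    | zero =>
      intro n t
      have h1 : (fun a => u n a t - u (n + 0) a t) = fun _ => 0 := by
        funext a
        simp
      rw [h1]
      refine ⟨Sk_zero _ _, ?_⟩
      have h2 : nk r 1 (fun _ : I => (0 : ℝ)) = 0 := by simp [nk]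
      rw [h2]
      positivity
    | succ l ih =>
      intro n t
      obtain ⟨h1, h2⟩ := hstep n t
      obtain ⟨h3, h4⟩ := ih (n + 1) t
      obtain ⟨h5, h6⟩ := sub_le h3 h1
      have h7 : (fun a => u n a t - u (n + (l + 1)) a t) =
          fun a => (u (n + 1) a t - u (n + 1 + l) a t) - (u (n + 1) a t - u n a t) := by
        funext a
        rw [show n + (l + 1) = n + 1 + l by omega]
        ring
      rw [h7]
      refine ⟨h5, h6.trans ?_⟩
      rw [pow_succ] at h4
      linarith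
  have hcs : ∀ i t, CauchySeq fun n => u n i t := by
    intro i t
    apply cauchySeq_of_le_geometric (1 / 2) (√(16 * M)) (by norm_num)
    intro n
    rw [dist_comm, Real.dist_eq]
    have h1 := abs_le_nk hA.r1 (hstep n t).1 i
    refine h1.trans ?_
    rw [← sqrt_geom (by positivity)]
    exact Real.sqrt_le_sqrt (hstep n t).2
  have hlim : ∀ i t, ∃ x, Tendsto (fun n => u n i t) atTop (𝓝 x) := fun i t =>
    cauchySeq_tendsto_of_complete (hcs i t)
  choose z hz using hlim
  have hzd : ∀ n t, Sk r 1 (fun a => u n a t - z a t) ∧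
      nk r 1 (fun a => u n a t - z a t) ≤ 64 * M * (1 / 4) ^ n := by
    intro n t
    apply lim_bound (u := fun l a => u n a t - u (n + l) a t) (fun l => hcau l n t)
    intro a
    have h1 : Tendsto (fun l => u (n + l) a t) atTop (𝓝 (z a t)) := by
      have h2 := (tendsto_add_atTop_iff_nat n).2 (hz a t)
      simpa only [add_comm] using h2
    exact tendsto_const_nhds.sub h1
  have hzx : Xs r (4 * M) z := by
    have h1 : ∀ t, Sk r 1 (fun a => z a t) ∧ nk r 1 (fun a => z a t) ≤ 4 * M := fun t =>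
      lim_bound (u := fun n a => u n a t) (fun n => ⟨(hinv n).1.sk t, (hinv n).1.le t⟩)
        fun i => hz i t
    refine ⟨fun i => ?_, fun t => (h1 t).1, fun t => (h1 t).2⟩
    have h2 : TendstoUniformly (fun n => u n i) (z i) atTop := by
      rw [Metric.tendstoUniformly_iff]
      intro ε hε
      have h3 : Tendsto (fun n : ℕ => √(64 * M) * (1 / 2 : ℝ) ^ n) atTop (𝓝 0) := by
        have h4 := (tendsto_pow_atTop_nhds_zero_of_lt_one (r := (1 / 2 : ℝ)) (by norm_num)
          (by norm_num)).const_mul (√(64 * M))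
        simpa using h4
      filter_upwards [h3.eventually (gt_mem_nhds hε)] with n hn t
      rw [dist_comm, Real.dist_eq]
      refine lt_of_le_of_lt ?_ hn
      rw [← sqrt_geom (by positivity)]
      exact (abs_le_nk hA.r1 (hzd n t).1 i).trans (Real.sqrt_le_sqrt (hzd n t).2)
    exact h2.continuous (Frequently.of_forall fun n => (hinv n).1.cont i)
  have hfix : ∀ i t, z i t = Pm T c τ z₀ z i t := by
    intro i t
    have h1 : Tendsto (fun n => u (n + 1) i t) atTop (𝓝 (Pm T c τ z₀ z i t)) := by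
      rw [tendsto_iff_dist_tendsto_zero]
      have h3 : Tendsto (fun n : ℕ => √(16 * M) * (1 / 2 : ℝ) ^ n) atTop (𝓝 0) := by
        have h4 := (tendsto_pow_atTop_nhds_zero_of_lt_one (r := (1 / 2 : ℝ)) (by norm_num)
          (by norm_num)).const_mul (√(16 * M))
        simpa using h4
      refine squeeze_zero (fun _ => dist_nonneg) (fun n => ?_) h3
      rw [Real.dist_eq, ← sqrt_geom (by positivity)]
      obtain ⟨h5, h6⟩ := hcontr (hinv n).1 hzx (fun t => (hzd n t).2) t
      refine (abs_le_nk hA.r1 h5 i).trans (Real.sqrt_le_sqrt (h6.trans (le_of_eq ?_)))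
      ring
    exact tendsto_nhds_unique ((tendsto_add_atTop_iff_nat 1).2 (hz i t)) h1
  have hU := U_spec hB z₀ (F := fun i s => bl c (fun a => z a s) (fun a => z a s) i)
    (fun i => bl_cont hA hzx hzx i)
  have hzU : ∀ i, ∀ s ∈ Icc 0 τ, z i s =
      U T z₀ (fun i s => bl c (fun a => z a s) (fun a => z a s) i) i s := by
    intro i s hs
    rw [hfix i s]
    unfold Pm
    rw [cl_eq hs]
  refine ⟨z, fun i => ?_, ⟨fun i t ht => ?_, 4 * M, fun t _ => ⟨hzx.sk t, hzx.le t⟩⟩,
    fun t _ => lim_bound (u := fun n a => u n a t) (fun n => (hinv n).2 t) fun i => hz i t⟩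
  · rw [hzU i 0 ⟨le_rfl, hτ.le⟩, hU.init]
  · have h1 := (hU.deriv i t).hasDerivWithinAt (s := Icc 0 τ)
    have h2 : (fun a => z a t) =
        fun a => U T z₀ (fun i s => bl c (fun a => z a s) (fun a => z a s) i) a t := by
      funext a
      exact hzU a t ht
    have h3 := h1.congr (fun s hs => hzU i s hs) (hzU i t ht)
    rw [← h2] at h3
    exact h3

/-- persistence of regularity -/
theorem persistB (hA : Adm d r c) (hB : Blk T d r b) (k : ℕ) {Θ : ℝ} {x : I → ℝ → ℝ}
    (hx : BC T r c Θ x) (h0 : Sk r (k + 1) (fun a => x a 0)) :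
    ∃ M, ∀ t ∈ Icc 0 Θ, Sk r (k + 1) (fun a => x a t) ∧ nk r (k + 1) (fun a => x a t) ≤ M := by
  obtain ⟨M, hM⟩ := hx.bdd
  obtain ⟨τ, hτ, hloc⟩ := local_exB hA hB k M
  have key : ∀ m : ℕ, ∀ t ∈ Icc 0 Θ, t ≤ m * τ → Sk r (k + 1) (fun a => x a t) ∧
      nk r (k + 1) (fun a => x a t) ≤ 4 ^ m * nk r (k + 1) (fun a => x a 0) := by
    intro m
    induction m with
    | zero =>
      intro t ht htm
      rw [Nat.cast_zero, zero_mul] at htm
      have h1 : t = 0 := le_antisymm htm ht.1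
      subst h1
      exact ⟨h0, by rw [pow_zero, one_mul]⟩
    | succ m ih =>
      intro t ht htm
      set t₀ := max 0 (t - τ) with ht₀
      have h1 : 0 ≤ t₀ := le_max_left _ _
      have h2 : t₀ ≤ t := max_le ht.1 (by linarith)
      have h3 : t₀ ≤ m * τ := by
        apply max_le (by positivity)
        push_cast at htm
        linarith
      have h4 : t - τ ≤ t₀ := le_max_right _ _
      have h5 : t₀ ∈ Icc 0 Θ := ⟨h1, h2.trans ht.2⟩
      obtain ⟨h6, h7⟩ := ih t₀ h5 h3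
      obtain ⟨y, hy0, hy, hyk⟩ := hloc (fun a => x a t₀) h6 (hM t₀ h5).2
      have h8 : BC T r c (t - t₀) (fun n s => x n (t₀ + s)) := (hx.mono ht.2).shift h1
      have h9 : BC T r c (t - t₀) y := hy.mono (by linarith)
      have h10 : ∀ n, x n t = y n (t - t₀) := by
        intro n
        have h11 := bc_uniq hA hB h8 h9 (fun n => by simp [hy0]) n (t - t₀)
          ⟨by linarith, le_rfl⟩
        simpa using h11
      obtain ⟨h11, h12⟩ := hyk (t - t₀) ⟨by linarith, by linarith⟩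
      have h13 : (fun a => x a t) = fun a => y a (t - t₀) := funext h10
      rw [h13]
      refine ⟨h11, h12.trans ?_⟩
      rw [pow_succ]
      linarith
  obtain ⟨m, hm⟩ := exists_nat_ge (Θ / τ)
  refine ⟨4 ^ m * nk r (k + 1) (fun a => x a 0), fun t ht => key m t ht ?_⟩
  rw [div_le_iff₀ hτ] at hm
  exact ht.2.trans hm

end

end Pool.Agent.Y954.S2
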